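import Mathlib
import Pool.Agent.H74.NilHomog

set_option autoImplicit false

namespace Pool.Agent.Results.MP_4b2ccd_lc.NilpotentLie

open Pool.Agent.H74.NilHomog

/-- The free nilpotent Lie algebra of class at most `n` on `r` generators,
`L_r / γ_(n+1)(L_r)` (`lowerCentralSeries` at `n` is `γ_(n+1)`). -/
abbrev N (K : Type) [Field K] (r n : ℕ) : Type :=
  FreeLieAlgebra K (Fin r) ⧸
    LieModule.lowerCentralSeries K (FreeLieAlgebra K (Fin r)) (FreeLieAlgebra K (Fin r)) n

section
variable (K L : Type) [Field K] [LieRing L] [LieAlgebra K L]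

def br : L →ₗ[K] L →ₗ[K] L :=
  LinearMap.mk₂ K (fun a b => ⁅a, b⁆) add_lie smul_lie lie_add lie_smul

lemma br_apply (a b : L) : br K L a b = ⁅a, b⁆ := rfl

lemma lie_mem_P (k : ℕ) (a : L) (ha : a ∈ P (br K L) k) (b : L) : ⁅a, b⁆ ∈ P (br K L) (k + 1) :=
  Submodule.apply_mem_map₂ (br K L) ha trivial

end

/-- The free nilpotent Lie algebra `N_{r,n}` is logically homogeneous. -/
theorem result :
    ∀ (K : Type) [Field K] (r n : ℕ), 1 ≤ r → 1 ≤ n →
      ∀ (k : ℕ) (a b : Fin k → N K r n), SameType K (N K r n) (fun u v => ⁅u, v⁆) a b →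
        ∃ σ : N K r n ≃ₗ⁅K⁆ N K r n, ∀ i, σ (a i) = b i := by
  intro K _ r n _ _ k a b h
  let L := FreeLieAlgebra K (Fin r)
  let I : ℕ → LieIdeal K L := LieModule.lowerCentralSeries K L L
  let q : L →ₗ[K] N K r n := (I n).toSubmodule.mkQ
  have hq : ∀ u v, q ⁅u, v⁆ = ⁅q u, q v⁆ := fun u v => rfl
  have hqs : Function.Surjective q := Submodule.mkQ_surjective _
  have hN : P (br K (N K r n)) n = ⊥ := by
    have : ∀ j, P (br K (N K r n)) j ≤ (I j).toSubmodule.map q := by
      intro j
      induction j with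
      | zero =>
        intro z _
        obtain ⟨y, rfl⟩ := hqs z
        exact ⟨y, trivial, rfl⟩
      | succ j ih =>
        refine Submodule.map₂_le.2 fun u hu v _ => ?_
        obtain ⟨u', hu', rfl⟩ := ih hu
        obtain ⟨v', rfl⟩ := hqs v
        refine ⟨⁅u', v'⁆, ?_, rfl⟩
        have e : I (j + 1) = ⁅(⊤ : LieIdeal K L), I j⁆ := LieModule.lowerCentralSeries_succ K L L j
        rw [← lie_skew, e]
        exact neg_mem (LieSubmodule.lie_mem_lie (LieSubmodule.mem_top v') hu')
    rw [eq_bot_iff]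
    refine (this n).trans ?_
    rintro _ ⟨y, hy, rfl⟩
    exact (Submodule.Quotient.mk_eq_zero _).2 hy
  obtain ⟨σ, h1, h2, h3⟩ := homog (m := br K (N K r n)) (fun i => q (FreeLieAlgebra.of K i)) (by
    intro f
    let F : L →ₗ⁅K⁆ N K r n := FreeLieAlgebra.lift K f
    have hF : ∀ j, (I j).toSubmodule ≤ (P (br K (N K r n)) j).comap F.toLinearMap := by
      intro j
      induction j with
      | zero => exact fun z _ => trivial
      | succ j ih =>
        have e : I (j + 1) = ⁅(⊤ : LieIdeal K L), I j⁆ := LieModule.lowerCentralSeries_succ K L L j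
        rw [e, LieSubmodule.lieIdeal_oper_eq_linear_span', Submodule.span_le]
        rintro _ ⟨u, -, v, hv, rfl⟩
        change F ⁅u, v⁆ ∈ P (br K (N K r n)) (j + 1)
        rw [LieHom.map_lie, ← lie_skew]
        exact neg_mem (lie_mem_P K _ j _ (ih hv) _)
    refine ⟨(I n).toSubmodule.liftQ F.toLinearMap (fun z hz => ?_), ?_, fun i => ?_⟩
    · have := hF n hz
      rwa [hN] at this
    · intro u v
      obtain ⟨u', rfl⟩ := hqs u
      obtain ⟨v', rfl⟩ := hqs v
      exact F.map_lie u' v'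
    · exact FreeLieAlgebra.lift_of_apply f i) (by
    intro T h1 h2
    let S : LieSubalgebra K L :=
      { T.comap q with lie_mem' := fun {u v} hu hv => h2 _ hu _ hv }
    let F : L →ₗ⁅K⁆ S := FreeLieAlgebra.lift K (fun i => ⟨FreeLieAlgebra.of K i, h1 i⟩)
    have e : S.incl.comp F = LieHom.id := FreeLieAlgebra.hom_ext fun i => by
      simp [F]
    rw [eq_top_iff]
    intro z _
    obtain ⟨y, rfl⟩ := hqs z
    have : ((F y : S) : L) = y := DFunLike.congr_fun e y
    rw [← this]
    exact (F y).2) (by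
    intro j u hu c d
    rw [br_apply, br_apply, leibniz_lie, ← lie_skew c]
    exact add_mem (lie_mem_P K _ _ _ (lie_mem_P K _ _ _ hu c) d)
      (neg_mem (lie_mem_P K _ _ _ (lie_mem_P K _ _ _ hu d) c))) ⟨n, hN⟩ a b h
  exact ⟨LieEquiv.ofBijective { σ with map_lie' := fun {u v} => h1 u v } h2, h3⟩

end Pool.Agent.Results.MP_4b2ccd_lc.NilpotentLie
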